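import Pool.Agent.POL.FI
import Pool.Agent.GPC.Defs

/-!
# POL: the polylogarithms as holomorphic functions
-/

open scoped Topology
open Metric

namespace Pool.Agent.POL

noncomputable section

/-- The polylogarithm as a function on the unit disc. -/
def Li (j : ℕ) (z : ℂ) : ℂ := ∑' m : ℕ, z ^ (m + 1) / ((m : ℂ) + 1) ^ j

/-- The derivative of the polylogarithm. -/
def Li' (j : ℕ) (z : ℂ) : ℂ := ∑' m : ℕ, ((m : ℂ) + 1) * z ^ m / ((m : ℂ) + 1) ^ j

theorem one_le_norm_cast (m j : ℕ) : 1 ≤ ‖((m : ℂ) + 1) ^ j‖ := by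
  rw [norm_pow]
  apply one_le_pow₀
  have h : ((m : ℂ) + 1) = ((m + 1 : ℕ) : ℂ) := by push_cast; ring
  rw [h, Complex.norm_natCast]
  exact_mod_cast Nat.le_add_left 1 m

theorem norm_cast_add (m : ℕ) : ‖(m : ℂ) + 1‖ = (m : ℝ) + 1 := by
  have h : ((m : ℂ) + 1) = ((m + 1 : ℕ) : ℂ) := by push_cast; ring
  rw [h, Complex.norm_natCast]
  push_cast; ring

theorem hasDerivAt_Li (j : ℕ) {z : ℂ} (hz : ‖z‖ < 1) : HasDerivAt (Li j) (Li' j z) z := by
  obtain ⟨ρ, hρ1, hρ2⟩ := exists_between hz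
  have hρ0 : 0 ≤ ρ := (norm_nonneg z).trans hρ1.le
  have hsum : Summable (fun m : ℕ => ((m : ℝ) + 1) * ρ ^ m) := by
    have h1 := summable_pow_mul_geometric_of_norm_lt_one 1 (r := ρ)
      (by rw [Real.norm_of_nonneg hρ0]; exact hρ2)
    have h2 := summable_pow_mul_geometric_of_norm_lt_one 0 (r := ρ)
      (by rw [Real.norm_of_nonneg hρ0]; exact hρ2)
    refine (h1.add h2).congr fun m => ?_
    ring
  refine hasDerivAt_tsum_of_isPreconnected (𝕜 := ℂ) (F := ℂ)
    (g := fun (m : ℕ) (y : ℂ) => y ^ (m + 1) / ((m : ℂ) + 1) ^ j)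
    (g' := fun (m : ℕ) (y : ℂ) => ((m : ℂ) + 1) * y ^ m / ((m : ℂ) + 1) ^ j)
    (t := ball (0 : ℂ) ρ) (y₀ := 0) hsum isOpen_ball
    (convex_ball _ _).isPreconnected ?_ ?_ ?_ ?_ ?_
  · intro m y _
    have h := (hasDerivAt_pow (m + 1) y).div_const (((m : ℂ) + 1) ^ j)
    have e : ((m + 1 : ℕ) : ℂ) * y ^ (m + 1 - 1) = ((m : ℂ) + 1) * y ^ m := by
      rw [Nat.add_sub_cancel]; push_cast; ring
    rw [e] at h
    exact h
  · intro m y hy
    have hy' : ‖y‖ ≤ ρ := (mem_ball_zero_iff.1 hy).le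
    rw [norm_div, norm_mul, norm_pow, norm_cast_add]
    refine (div_le_self (by positivity) (one_le_norm_cast m j)).trans ?_
    exact mul_le_mul_of_nonneg_left (pow_le_pow_left₀ (norm_nonneg y) hy' m) (by positivity)
  · exact mem_ball_self ((norm_nonneg z).trans_lt hρ1)
  · refine (summable_zero (α := ℂ) (β := ℕ)).congr fun m => ?_
    simp
  · exact mem_ball_zero_iff.2 hρ1

theorem mul_Li' (j : ℕ) (z : ℂ) : z * Li' (j + 1) z = Li j z := by
  unfold Li Li'
  rw [← tsum_mul_left]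
  refine tsum_congr fun m => ?_
  have h : ((m : ℂ) + 1) ≠ 0 := by
    intro h
    have := norm_cast_add m
    rw [h, norm_zero] at this
    have h2 : (0 : ℝ) ≤ m := Nat.cast_nonneg m
    linarith
  rw [pow_succ (a := (m : ℂ) + 1), pow_succ (a := z)]
  field_simp

theorem sub_mul_Li'_one {z : ℂ} (hz : ‖z‖ < 1) : (1 - z) * Li' 1 z = 1 := by
  have h : Li' 1 z = (1 - z)⁻¹ := by
    unfold Li'
    rw [← tsum_geometric_of_norm_lt_one hz]
    refine tsum_congr fun m => ?_
    have h : ((m : ℂ) + 1) ≠ 0 := by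
      intro h
      have := norm_cast_add m
      rw [h, norm_zero] at this
      have h2 : (0 : ℝ) ≤ m := Nat.cast_nonneg m
      linarith
    rw [pow_one]
    field_simp
  rw [h, mul_inv_cancel₀]
  intro h0
  have : z = 1 := by linear_combination -h0
  rw [this, norm_one] at hz
  exact lt_irrefl _ hz

/-- The functions: the logarithm of `u z` (with `u = 1` or `u = -1`) and the polylogarithms. -/
def gg (k : ℕ) (u : ℂ) (i : Fin (k + 2)) (z : ℂ) : ℂ :=
  if (i : ℕ) = 0 then Complex.log (u * z) else Li i z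

theorem gg_hasDeriv {k : ℕ} {u z : ℂ} (i : Fin (k + 2)) (hz : ‖z‖ < 1)
    (hu : u * z ∈ Complex.slitPlane) :
    HasDerivAt (gg k u i) (if (i : ℕ) = 0 then u / (u * z) else Li' i z) z := by
  by_cases hi : (i : ℕ) = 0
  · rw [if_pos hi]
    have h1 : HasDerivAt (fun y => u * y) u z := by
      simpa using (hasDerivAt_id z).const_mul u
    have h2 := h1.clog hu
    have h3 : gg k u i = fun y => Complex.log (u * y) := by
      funext y; unfold gg; rw [if_pos hi]
    rw [h3]
    exact h2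
  · rw [if_neg hi]
    have h3 : gg k u i = Li i := by
      funext y; unfold gg; rw [if_neg hi]
    rw [h3]
    exact hasDerivAt_Li i hz

theorem gg_sys {k : ℕ} {u z : ℂ} (hz : ‖z‖ < 1) (hu : u * z ∈ Complex.slitPlane) :
    Sys (gg k u) z := by
  intro i
  refine ⟨_, gg_hasDeriv i hz hu, ?_⟩
  have huz : u * z ≠ 0 := Complex.slitPlane_ne_zero hu
  have hu0 : u ≠ 0 := left_ne_zero_of_mul huz
  have hz0 : z ≠ 0 := right_ne_zero_of_mul huz
  unfold e0 e1
  rcases Nat.lt_or_ge (i : ℕ) 1 with hi | hi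
  · have hi0 : (i : ℕ) = 0 := by omega
    rw [if_pos hi0, if_pos hi0, if_neg (by omega), map_one, map_zero]
    field_simp
    ring
  · rcases Nat.lt_or_ge (i : ℕ) 2 with hi2 | hi2
    · have hi1 : (i : ℕ) = 1 := by omega
      rw [if_neg (by omega), if_neg (by omega), if_pos hi1, if_pos hi1, map_one, map_zero, hi1]
      linear_combination z * sub_mul_Li'_one hz
    · rw [if_neg (by omega), if_neg (by omega), if_neg (by omega), if_neg (by omega), map_zero,
        ev_X]
      have h1 : gg k u (prv i) z = Li ((i : ℕ) - 1) z := by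
        unfold gg prv
        rw [if_neg (by simp only; omega)]
      have h2 := mul_Li' ((i : ℕ) - 1) z
      rw [Nat.sub_add_cancel (by omega)] at h2
      rw [h1]
      linear_combination (1 - z) * h2

/-- Independence on a ball. -/
theorem gg_indep (k : ℕ) (u z0 : ℂ) (ρ : ℝ) (hρ : 0 < ρ)
    (hb : ∀ z ∈ ball z0 (10 * ρ), ‖z‖ < 1 ∧ u * z ∈ Complex.slitPlane) :
    GPC.Indep (k + 2) z0 ρ (fun z => z) (gg k u) where
  pos := hρ
  ds := differentiableOn_id
  df := fun j z hz =>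
    (gg_hasDeriv j (hb z hz).1 (hb z hz).2).differentiableAt.differentiableWithinAt
  ind := fun Q hQ => indep_option isOpen_ball ⟨z0, mem_ball_self (by positivity)⟩
    (fun z hz => gg_sys (hb z hz).1 (hb z hz).2) Q hQ

end

end Pool.Agent.POL
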