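import Mathlib
import Pool.Agent.GPC.Defs

/-!
# POL: polylogarithms, definitions of the statement
-/

namespace Pool.Agent.POL

noncomputable section

/-- The classical polylogarithm `Li_j(x) = ∑_{n ≥ 1} x ^ n / n ^ j`. -/
def polylog (j : ℕ) (x : ℝ) : ℝ := ∑' m : ℕ, x ^ (m + 1) / ((m : ℝ) + 1) ^ j

/-- The numbers `log |x|, Li_1(x), …, Li_{k+1}(x)`. -/
def per (k : ℕ) (x : ℝ) (i : Fin (k + 2)) : ℝ :=
  if (i : ℕ) = 0 then Real.log |x| else polylog i x

end

end Pool.Agent.POL
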