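import Pool.Agent.POL.ANA
import Pool.Agent.POL.Defs
import Pool.Agent.HGP.INDUC

/-!
# POL: the counting theorem
-/

open scoped Topology
open Metric Set

namespace Pool.Agent.POL

noncomputable section

theorem Li_real (j : ℕ) (x : ℝ) : Li j (x : ℂ) = (polylog j x : ℂ) := by
  unfold Li polylog
  rw [Complex.ofReal_tsum]
  refine tsum_congr fun m => ?_
  push_cast
  rfl

/-- the sign of `τ` -/
def sg (τ : ℝ) : ℝ := if 0 < τ then 1 else -1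

theorem sg_mul (τ : ℝ) : sg τ * τ = |τ| := by
  unfold sg
  split_ifs with h
  · rw [one_mul, abs_of_pos h]
  · rw [neg_one_mul, abs_of_nonpos (not_lt.1 h)]

theorem sg_abs (τ : ℝ) : |sg τ| = 1 := by
  unfold sg
  split_ifs <;> simp

theorem ball_good {τ ρ : ℝ} (h1 : 10 * ρ < |τ|) (h2 : |τ| + 10 * ρ < 1) :
    ∀ z ∈ ball (τ : ℂ) (10 * ρ), ‖z‖ < 1 ∧ ((sg τ : ℝ) : ℂ) * z ∈ Complex.slitPlane := by
  intro z hz
  rw [mem_ball, dist_eq_norm] at hz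
  constructor
  · calc ‖z‖ = ‖(τ : ℂ) + (z - τ)‖ := by congr 1; ring
      _ ≤ ‖(τ : ℂ)‖ + ‖z - τ‖ := norm_add_le _ _
      _ = |τ| + ‖z - τ‖ := by rw [Complex.norm_real, Real.norm_eq_abs]
      _ < 1 := by linarith
  · left
    have h3 : |(((sg τ : ℝ) : ℂ) * (z - τ)).re| ≤ ‖z - τ‖ := by
      refine (Complex.abs_re_le_norm _).trans ?_
      rw [norm_mul, Complex.norm_real, Real.norm_eq_abs, sg_abs, one_mul]
    have h4 : (((sg τ : ℝ) : ℂ) * z).re = |τ| + (((sg τ : ℝ) : ℂ) * (z - τ)).re := by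
      rw [← sg_mul]
      have : ((sg τ : ℝ) : ℂ) * z = ((sg τ * τ : ℝ) : ℂ) + ((sg τ : ℝ) : ℂ) * (z - τ) := by
        push_cast; ring
      rw [this, Complex.add_re, Complex.ofReal_re]
    rw [h4]
    have := abs_le.1 h3
    linarith [this.1]

theorem sg_eq {τ r ρ : ℝ} (hr : |r - τ| ≤ ρ) (h : 10 * ρ < |τ|) : sg τ * r = |r| := by
  have hρ : 0 ≤ ρ := (abs_nonneg _).trans hr
  obtain ⟨h1, h2⟩ := abs_le.1 hr
  unfold sg
  split_ifs with h0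
  · rw [abs_of_pos h0] at h
    rw [one_mul, abs_of_pos (by linarith)]
  · rw [abs_of_nonpos (not_lt.1 h0)] at h
    rw [neg_one_mul, abs_of_neg (by linarith)]

theorem gg_real (k : ℕ) {τ r ρ : ℝ} (hr : |r - τ| ≤ ρ) (h : 10 * ρ < |τ|) (i : Fin (k + 2)) :
    gg k ((sg τ : ℝ) : ℂ) i (r : ℂ) = (per k r i : ℂ) := by
  unfold gg per
  split_ifs with hi
  · rw [← Complex.ofReal_mul, sg_eq hr h, Complex.ofReal_log (abs_nonneg r)]
  · exact Li_real i r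

theorem isSmall_rename {σ τ : Type} (E : σ ≃ τ) {Q : MvPolynomial σ ℤ} {D B : ℕ}
    (h : GPC.IsSmall Q D B) : GPC.IsSmall (MvPolynomial.rename E Q) D B := by
  refine ⟨(MvPolynomial.totalDegree_rename_le _ _).trans h.1, fun m => ?_⟩
  have h1 : m = Finsupp.mapDomain E (Finsupp.mapDomain E.symm m) := by
    rw [← Finsupp.mapDomain_comp]
    simp
  rw [h1, MvPolynomial.coeff_rename_mapDomain E E.injective]
  exact h.2 _

theorem isBad (k : ℕ) {κ : Type} [Fintype κ] {c : κ → ℂ} {D B : ℕ} {r : ℚ} {τ ρ : ℝ}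
    (hρ : |(r : ℝ) - τ| ≤ ρ) (hτ : 10 * ρ < |τ|)
    (h : ¬ GPC.Free D B (Sum.elim c (fun i => (per k r i : ℂ)))) :
    GPC.IsBad (τ : ℂ) (τ : ℂ) ρ ρ (fun z => z) (gg k ((sg τ : ℝ) : ℂ)) c D B r := by
  unfold GPC.Free at h
  push Not at h
  obtain ⟨Q, hQs, hQ0, hQne⟩ := h
  have hn : ‖((r : ℝ) : ℂ) - (τ : ℂ)‖ ≤ ρ := by
    rw [← Complex.ofReal_sub, Complex.norm_real]
    exact hρ
  refine ⟨((r : ℝ) : ℂ), ?_, hn, ?_, MvPolynomial.rename (Equiv.sumComm κ (Fin (k + 2))) Q, ?_,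
    isSmall_rename _ hQs, ?_⟩
  · rw [mem_closedBall, dist_eq_norm]
    exact hn
  · simp
  · intro h0
    apply hQne
    exact MvPolynomial.rename_injective (R := ℤ) _ (Equiv.sumComm κ (Fin (k + 2))).injective
      (by rw [h0, map_zero])
  · rw [MvPolynomial.aeval_rename, ← hQ0]
    congr 2
    funext x
    rcases x with x | x
    · simp
    · simp only [Function.comp_apply, Equiv.sumComm_apply, Sum.swap_inr, Sum.elim_inl,
        Sum.elim_inr]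
      exact gg_real k hρ hτ x

/-- One point. -/
theorem step (hG : GPC.Stmt_ThmG) (k : ℕ) (δ : ℝ) (hδ : 0 < δ) (ε : ℝ) (hε : 0 < ε) (κ : Type)
    [Fintype κ] (D A : ℕ) : ∃ C : ℝ, ∀ H : ℕ, 1 ≤ H → ∀ c : κ → ℂ, GPC.Free D (H ^ A) c →
    ∀ T : Finset ℚ, (∀ r ∈ T, δ ≤ |(r : ℝ)| ∧ |(r : ℝ)| ≤ 1 - δ ∧ r.num.natAbs ≤ H ∧ r.den ≤ H ∧
      ¬ GPC.Free D (H ^ A) (Sum.elim c (fun i => (per k r i : ℂ)))) →
      (T.card : ℝ) ≤ C * (H : ℝ) ^ ε := by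
  classical
  -- radius
  have hρ : 0 < δ / 20 := by positivity
  have hx : ∀ τ : ℝ, ∃ C : ℝ, 0 ≤ C ∧ (δ ≤ |τ| ∧ |τ| ≤ 1 - δ → ∀ H : ℕ, 1 ≤ H → ∀ c : κ → ℂ,
      GPC.Free D (H ^ A) c → ∀ T : Finset ℚ, (∀ r ∈ T, r.num.natAbs ≤ H ∧ r.den ≤ H ∧
        GPC.IsBad (τ : ℂ) (τ : ℂ) (δ / 20) (δ / 20) (fun z => z) (gg k ((sg τ : ℝ) : ℂ)) c
          D (H ^ A) r) → (T.card : ℝ) ≤ C * (H : ℝ) ^ ε) := by
    intro τ
    by_cases hτ : δ ≤ |τ| ∧ |τ| ≤ 1 - δ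
    · obtain ⟨C, hC⟩ := hG _ κ (τ : ℂ) (δ / 20) ε _ _ (gg_indep k ((sg τ : ℝ) : ℂ) (τ : ℂ) (δ / 20)
        hρ (ball_good (by linarith [hτ.1]) (by linarith [hτ.2]))) hε D A
      refine ⟨max C 0, le_max_right _ _, fun _ H hH c hc T hT => ?_⟩
      refine (hC H hH c hc T hT).trans ?_
      exact mul_le_mul_of_nonneg_right (le_max_left _ _) (by positivity)
    · exact ⟨0, le_refl _, fun h => absurd h hτ⟩
  choose C hC0 hC using hx
  have hcpt : IsCompact {x : ℝ | δ ≤ |x| ∧ |x| ≤ 1 - δ} := by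
    refine (isCompact_Icc (a := -(1 - δ)) (b := 1 - δ)).of_isClosed_subset ?_ ?_
    · exact (isClosed_le continuous_const continuous_abs).inter
        (isClosed_le continuous_abs continuous_const)
    · intro x hx
      exact abs_le.1 hx.2
  obtain ⟨F, hF, hcov⟩ := hcpt.elim_nhds_subcover
    (fun τ => ball τ (δ / 20)) (fun τ _ => ball_mem_nhds τ hρ)
  refine ⟨∑ τ ∈ F, C τ, fun H hH c hc T hT => ?_⟩
  have hsub : T ⊆ F.biUnion (fun τ => T.filter (fun r : ℚ => |(r : ℝ) - τ| ≤ δ / 20)) := by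
    intro r hr
    have h1 : (r : ℝ) ∈ {x : ℝ | δ ≤ |x| ∧ |x| ≤ 1 - δ} := ⟨(hT r hr).1, (hT r hr).2.1⟩
    obtain ⟨τ, hτF, hτ⟩ := Set.mem_iUnion₂.mp (hcov h1)
    refine Finset.mem_biUnion.mpr ⟨τ, hτF, Finset.mem_filter.mpr ⟨hr, ?_⟩⟩
    rw [mem_ball, Real.dist_eq] at hτ
    exact hτ.le
  have h2 : (T.card : ℝ) ≤ ∑ τ ∈ F, ((T.filter (fun r : ℚ => |(r : ℝ) - τ| ≤ δ / 20)).card : ℝ) := by
    have h3 := (Finset.card_le_card hsub).trans Finset.card_biUnion_le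
    exact_mod_cast h3
  refine h2.trans ?_
  rw [Finset.sum_mul]
  refine Finset.sum_le_sum fun τ hτ => ?_
  refine hC τ (hF τ hτ) H hH c hc _ fun r hr => ?_
  obtain ⟨hr1, hr2⟩ := Finset.mem_filter.mp hr
  obtain ⟨h4, h5, h6, h7, h8⟩ := hT r hr1
  refine ⟨h6, h7, isBad k hr2 ?_ h8⟩
  have := (hF τ hτ).1
  change δ ≤ |τ| at this
  linarith

end

end Pool.Agent.POL
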