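import Pool.Agent.POL.Poly

/-!
# POL: functional independence of the classical polylogarithms

`g 0` is a logarithm (`z g_0' = 1`), `g 1` a logarithm of `1 - z` (`(1 - z) g_1' = 1`), and
`z g_{j+1}' = g_j`: then `z, g 0, .., g (k+1)` are algebraically independent over the complex numbers.
-/

open MvPolynomial
open scoped Topology

namespace Pool.Agent.POL

noncomputable section

/-! ### Derivations which lower the weight by one -/

section low

variable {σ : Type} {A : Type} [CommRing A] {w : σ → ℕ}

theorem weight_sub (m : σ →₀ ℕ) (i : σ) (hi : m i ≠ 0) :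
    Finsupp.weight w (m - Finsupp.single i 1) + w i = Finsupp.weight w m := by
  have h1 : m = (m - Finsupp.single i 1) + Finsupp.single i 1 := by
    ext j
    by_cases hj : j = i
    · subst hj
      simp only [Finsupp.coe_add, Finsupp.coe_tsub, Pi.add_apply, Pi.sub_apply,
        Finsupp.single_eq_same]
      omega
    · simp [Finsupp.single_eq_of_ne hj]
  conv_rhs => rw [h1]
  rw [map_add, Finsupp.weight_single]
  simp

theorem low_monomial (hw : ∀ i, 1 ≤ w i) (f : σ → MvPolynomial σ A)
    (hf : ∀ i, IsWeightedHomogeneous w (f i) (w i - 1)) (m : σ →₀ ℕ) (a : A) :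
    IsWeightedHomogeneous w (mkDerivation A f (monomial m a)) (Finsupp.weight w m - 1) := by
  rw [mkDerivation_monomial, ← mem_weightedHomogeneousSubmodule]
  apply Submodule.smul_mem
  apply Submodule.sum_mem
  intro i hi
  simp only [mem_weightedHomogeneousSubmodule, smul_eq_mul]
  have hi' : m i ≠ 0 := Finsupp.mem_support_iff.1 hi
  have h1 := weight_sub (w := w) m i hi'
  have h2 := (isWeightedHomogeneous_monomial w (m - Finsupp.single i 1) ((m i : ℕ) : A) rfl).mul
    (hf i)
  have h3 : Finsupp.weight w (m - Finsupp.single i 1) + (w i - 1) = Finsupp.weight w m - 1 := by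
    have := hw i
    omega
  rw [h3] at h2
  exact h2

theorem coeff_low (hw : ∀ i, 1 ≤ w i) (f : σ → MvPolynomial σ A)
    (hf : ∀ i, IsWeightedHomogeneous w (f i) (w i - 1)) (P : MvPolynomial σ A) (m : σ →₀ ℕ)
    (v : ℕ) (hm : Finsupp.weight w m = v) :
    coeff m (mkDerivation A f P) =
      coeff m (mkDerivation A f (weightedHomogeneousComponent w (v + 1) P)) := by
  induction P using MvPolynomial.induction_on' with
  | monomial u a =>
    rw [weightedHomogeneousComponent_of_mem (n := Finsupp.weight w u)
      (isWeightedHomogeneous_monomial w u a rfl)]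
    split_ifs with h
    · rfl
    · rw [map_zero, coeff_zero]
      by_contra hne
      have h1 := low_monomial hw f hf u a hne
      rw [hm] at h1
      have h2 : Finsupp.weight w u = 0 := by omega
      have h3 : u = 0 := by
        by_contra hu
        obtain ⟨i, hi⟩ : ∃ i, u i ≠ 0 := by
          by_contra hcon
          push Not at hcon
          exact hu (Finsupp.ext hcon)
        have h4 := weight_sub (w := w) u i hi
        have := hw i
        omega
      apply hne
      rw [h3]
      have : (monomial 0 a : MvPolynomial σ A) = C a := rfl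
      rw [this, derivation_C, coeff_zero]
  | add p q hp hq =>
    rw [map_add, map_add, map_add, coeff_add, coeff_add, hp, hq]

end low

/-! ### The operators -/

/-- the weights of the variables -/
def wt (k : ℕ) (i : Fin (k + 2)) : ℕ := max 1 (i : ℕ)

theorem wt_pos (k : ℕ) (i : Fin (k + 2)) : 1 ≤ wt k i := le_max_left _ _

section ops

variable {A : Type} [CommRing A] {k : ℕ}

/-- the previous index -/
def prv (i : Fin (k + 2)) : Fin (k + 2) := ⟨(i : ℕ) - 1, by omega⟩

/-- the images of the variables: part with the factor `1 - z` -/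
def e0 (A : Type) [CommRing A] (k : ℕ) (i : Fin (k + 2)) : MvPolynomial (Fin (k + 2)) A :=
  if (i : ℕ) = 0 then 1 else if (i : ℕ) = 1 then 0 else X (prv i)

/-- the images of the variables: part with the factor `z` -/
def e1 (A : Type) [CommRing A] (k : ℕ) (i : Fin (k + 2)) : MvPolynomial (Fin (k + 2)) A :=
  if (i : ℕ) = 1 then 1 else 0

theorem e0_hom (i : Fin (k + 2)) : IsWeightedHomogeneous (wt k) (e0 A k i) (wt k i - 1) := by
  unfold e0
  split_ifs with h1 h2
  · have : wt k i - 1 = 0 := by unfold wt; omega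
    rw [this]
    exact isWeightedHomogeneous_one A (wt k)
  · exact isWeightedHomogeneous_zero _ _ _
  · have : wt k i - 1 = wt k (prv i) := by
      unfold wt prv
      simp only
      omega
    rw [this]
    exact isWeightedHomogeneous_X A (wt k) (prv i)

theorem e1_hom (i : Fin (k + 2)) : IsWeightedHomogeneous (wt k) (e1 A k i) (wt k i - 1) := by
  unfold e1
  split_ifs with h1
  · have : wt k i - 1 = 0 := by unfold wt; omega
    rw [this]
    exact isWeightedHomogeneous_one A (wt k)
  · exact isWeightedHomogeneous_zero _ _ _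

theorem mk_eq_sum (f : Fin (k + 2) → MvPolynomial (Fin (k + 2)) A)
    (N : MvPolynomial (Fin (k + 2)) A) : mkDerivation A f N = ∑ i, pderiv i N * f i := by
  classical
  induction N using MvPolynomial.induction_on with
  | C a => simp
  | add p q hp hq => simp only [map_add, hp, hq, add_mul, Finset.sum_add_distrib]
  | mul_X p i hp =>
    rw [Derivation.leibniz, mkDerivation_X, smul_eq_mul, smul_eq_mul, hp, Finset.mul_sum]
    have h1 : ∀ l, pderiv l (p * X i) * f l = (if l = i then p * f l else 0) +
        X i * (pderiv l p * f l) := by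
      intro l
      rw [pderiv_mul, pderiv_X]
      split_ifs with hl
      · rw [hl, Pi.single_eq_same]; ring
      · rw [Pi.single_eq_of_ne (Ne.symm hl)]; ring
    rw [Finset.sum_congr rfl (fun l _ => h1 l), Finset.sum_add_distrib, Finset.sum_ite_eq',
      if_pos (Finset.mem_univ i)]

/-- constants of both derivations are constants -/
theorem pderiv_zero (N : MvPolynomial (Fin (k + 2)) A) (h0 : mkDerivation A (e0 A k) N = 0)
    (h1 : mkDerivation A (e1 A k) N = 0) (i : Fin (k + 2)) : pderiv i N = 0 := by
  -- commutators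
  have hcomm : ∀ j : ℕ, ∀ (hj : j + 1 < k + 2), 1 ≤ j →
      pderiv (⟨j, by omega⟩ : Fin (k + 2)) (mkDerivation A (e0 A k) N) -
        mkDerivation A (e0 A k) (pderiv (⟨j, by omega⟩ : Fin (k + 2)) N) =
        pderiv (⟨j + 1, hj⟩ : Fin (k + 2)) N := by
    intro j hj hj1
    have hD : ⁅(pderiv (⟨j, by omega⟩ : Fin (k + 2)) :
          Derivation A (MvPolynomial (Fin (k + 2)) A) (MvPolynomial (Fin (k + 2)) A)),
          mkDerivation A (e0 A k)⁆ =
        (pderiv (⟨j + 1, hj⟩ : Fin (k + 2)) :
          Derivation A (MvPolynomial (Fin (k + 2)) A) (MvPolynomial (Fin (k + 2)) A)) := by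
      apply derivation_ext
      intro i
      classical
      rw [Derivation.commutator_apply, mkDerivation_X, pderiv_X, pderiv_X]
      have hz : mkDerivation A (e0 A k)
          (Pi.single (M := fun _ => MvPolynomial (Fin (k + 2)) A) (⟨j, by omega⟩ : Fin (k + 2))
            (1 : MvPolynomial (Fin (k + 2)) A) i) = 0 := by
        by_cases hi : i = (⟨j, by omega⟩ : Fin (k + 2))
        · rw [hi, Pi.single_eq_same]
          exact Derivation.map_one_eq_zero _
        · rw [Pi.single_eq_of_ne hi, map_zero]
      rw [hz, sub_zero]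
      unfold e0
      split_ifs with h1 h2
      · rw [Derivation.map_one_eq_zero, Pi.single_eq_of_ne]
        rintro rfl
        simp at h1
      · rw [map_zero, Pi.single_eq_of_ne]
        rintro rfl
        simp only at h2
        omega
      · rw [pderiv_X]
        by_cases hi : (i : ℕ) = j + 1
        · have h3 : (⟨j, by omega⟩ : Fin (k + 2)) = prv i := by
            apply Fin.ext; simp only [prv]; omega
          have h4 : (⟨j + 1, hj⟩ : Fin (k + 2)) = i := by
            apply Fin.ext; simp only; omega
          rw [h3, h4, Pi.single_eq_same, Pi.single_eq_same]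
        · rw [Pi.single_eq_of_ne, Pi.single_eq_of_ne]
          · intro h; apply hi; rw [h]
          · intro h
            apply hi
            have := congrArg Fin.val h
            simp only [prv] at this
            omega
    rw [← hD, Derivation.commutator_apply]
  -- `∂_j N = 0` for `j ≥ 1`
  have hj : ∀ j : ℕ, ∀ (hj : j + 1 < k + 2), pderiv (⟨j + 1, hj⟩ : Fin (k + 2)) N = 0 := by
    intro j
    induction j with
    | zero =>
      intro hj
      have hD : mkDerivation A (e1 A k) = (pderiv (⟨0 + 1, hj⟩ : Fin (k + 2)) :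
          Derivation A (MvPolynomial (Fin (k + 2)) A) (MvPolynomial (Fin (k + 2)) A)) := by
        apply derivation_ext
        intro i
        classical
        rw [mkDerivation_X, pderiv_X]
        unfold e1
        split_ifs with h
        · have h4 : (⟨0 + 1, hj⟩ : Fin (k + 2)) = i := by
            apply Fin.ext; simp only; omega
          rw [h4, Pi.single_eq_same]
        · rw [Pi.single_eq_of_ne]
          intro h'; apply h; rw [h']
      rw [← hD]; exact h1
    | succ j ih =>
      intro hj
      have h2 := hcomm (j + 1) hj (by omega)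
      rw [h0, ih (by omega), map_zero, map_zero, sub_zero] at h2
      exact h2.symm
  -- `∂_0 N = 0`
  by_cases hi : (i : ℕ) = 0
  · have hsum : mkDerivation A (e0 A k) N = ∑ i, pderiv i N * e0 A k i := mk_eq_sum _ _
    rw [h0, Finset.sum_eq_single (0 : Fin (k + 2))] at hsum
    · have h4 : i = 0 := Fin.ext hi
      rw [h4]
      have h5 : e0 A k 0 = 1 := by unfold e0; simp
      rw [h5, mul_one] at hsum
      exact hsum.symm
    · intro l _ hl
      have h6 : (l : ℕ) ≠ 0 := fun h => hl (Fin.ext h)
      have h7 := hj ((l : ℕ) - 1) (by omega)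
      have h8 : (⟨(l : ℕ) - 1 + 1, by omega⟩ : Fin (k + 2)) = l := by
        apply Fin.ext; simp only; omega
      rw [h8] at h7
      rw [h7, zero_mul]
    · intro h; exact absurd (Finset.mem_univ _) h
  · have h7 := hj ((i : ℕ) - 1) (by omega)
    have h8 : (⟨(i : ℕ) - 1 + 1, by omega⟩ : Fin (k + 2)) = i := by
      apply Fin.ext; simp only; omega
    rw [h8] at h7
    exact h7

end ops

/-! ### The derivation `z (1 - z) d/dz` -/

section main

variable {k : ℕ}

/-- the ring of polynomials in the functions with coefficients in `ℂ[z]` -/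
abbrev R (k : ℕ) := MvPolynomial (Fin (k + 2)) (Polynomial ℂ)

/-- `z (1 - z) d/dz` on `ℂ[z]` -/
def dl (a : Polynomial ℂ) : Polynomial ℂ :=
  Polynomial.X * (1 - Polynomial.X) * Polynomial.derivative a

theorem dl_add (a b : Polynomial ℂ) : dl (a + b) = dl a + dl b := by
  unfold dl; rw [Polynomial.derivative_add]; ring

/-- `z (1 - z) d/dz` on the coefficients -/
def dC (P : R k) : R k := ∑ m ∈ P.support, monomial m (dl (coeff m P))

theorem coeff_dC (P : R k) (m : Fin (k + 2) →₀ ℕ) : coeff m (dC P) = dl (coeff m P) := by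
  classical
  unfold dC
  rw [coeff_sum]
  simp only [coeff_monomial]
  rw [Finset.sum_ite_eq']
  split_ifs with h
  · rfl
  · rw [notMem_support_iff.1 h]
    simp [dl]

theorem dC_add (P Q : R k) : dC (P + Q) = dC P + dC Q := by
  ext1 m
  rw [coeff_add, coeff_dC, coeff_dC, coeff_dC, coeff_add, dl_add]

theorem dC_C (a : Polynomial ℂ) : dC (C a : R k) = C (dl a) := by
  classical
  ext1 m
  rw [coeff_dC, coeff_C, coeff_C]
  split_ifs
  · rfl
  · simp [dl]

theorem dC_mul_X (P : R k) (i : Fin (k + 2)) : dC (P * X i) = dC P * X i := by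
  classical
  ext1 m
  rw [coeff_dC, coeff_mul_X', coeff_mul_X', coeff_dC]
  split_ifs
  · rfl
  · simp [dl]

/-- the derivation corresponding to `z (1 - z) d/dz` -/
def Dl (P : R k) : R k :=
  dC P + C (1 - Polynomial.X) * mkDerivation _ (e0 _ k) P +
    C Polynomial.X * mkDerivation _ (e1 _ k) P

/-- evaluation -/
def ev (g : Fin (k + 2) → ℂ → ℂ) (z : ℂ) : R k →+* ℂ :=
  eval₂Hom (Polynomial.evalRingHom z) (fun i => g i z)

theorem ev_C (g : Fin (k + 2) → ℂ → ℂ) (z : ℂ) (a : Polynomial ℂ) :
    ev g z (C a) = a.eval z := by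
  unfold ev; simp

theorem ev_X (g : Fin (k + 2) → ℂ → ℂ) (z : ℂ) (i : Fin (k + 2)) : ev g z (X i) = g i z := by
  unfold ev; simp

/-- the differential equations -/
def Sys (g : Fin (k + 2) → ℂ → ℂ) (z : ℂ) : Prop :=
  ∀ i, ∃ d : ℂ, HasDerivAt (g i) d z ∧
    z * (1 - z) * d = (1 - z) * ev g z (e0 _ k i) + z * ev g z (e1 _ k i)

theorem chain {g : Fin (k + 2) → ℂ → ℂ} {z : ℂ} (hg : Sys g z) (P : R k) :
    ∃ d : ℂ, HasDerivAt (fun y => ev g y P) d z ∧ z * (1 - z) * d = ev g z (Dl P) := by
  induction P using MvPolynomial.induction_on with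
  | C a =>
    refine ⟨(Polynomial.derivative a).eval z, ?_, ?_⟩
    · simp only [ev_C]
      exact a.hasDerivAt z
    · unfold Dl
      rw [dC_C, derivation_C, derivation_C, mul_zero, mul_zero, add_zero, add_zero, ev_C]
      unfold dl
      simp
  | add p q hp hq =>
    obtain ⟨d1, h1, h2⟩ := hp
    obtain ⟨d2, h3, h4⟩ := hq
    refine ⟨d1 + d2, ?_, ?_⟩
    · simp only [map_add]
      exact h1.add h3
    · rw [mul_add, h2, h4]
      unfold Dl
      rw [dC_add]
      simp only [map_add, map_mul]
      ring
  | mul_X p i hp =>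
    obtain ⟨d1, h1, h2⟩ := hp
    obtain ⟨d2, h3, h4⟩ := hg i
    refine ⟨d1 * g i z + ev g z p * d2, ?_, ?_⟩
    · simp only [map_mul, ev_X]
      exact h1.mul h3
    · have e1' : Dl (p * X i) = Dl p * X i +
          p * (C (1 - Polynomial.X) * e0 _ k i + C Polynomial.X * e1 _ k i) := by
        unfold Dl
        rw [dC_mul_X, Derivation.leibniz, Derivation.leibniz, mkDerivation_X, mkDerivation_X]
        simp only [smul_eq_mul]
        ring
      rw [e1']
      simp only [map_add, map_mul, ev_X, ev_C, Polynomial.eval_sub, Polynomial.eval_one,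
        Polynomial.eval_X]
      rw [← h2, ← h4]
      ring

theorem mk_C_mul {A : Type} [CommRing A] (f : Fin (k + 2) → MvPolynomial (Fin (k + 2)) A) (a : A)
    (Q : MvPolynomial (Fin (k + 2)) A) :
    mkDerivation A f (C a * Q) = C a * mkDerivation A f Q := by
  rw [Derivation.leibniz, derivation_C, smul_zero, add_zero, smul_eq_mul]

theorem map_mk (f : Fin (k + 2) → MvPolynomial (Fin (k + 2)) ℂ)
    (f' : Fin (k + 2) → R k) (hf : ∀ i, map Polynomial.C (f i) = f' i)
    (N : MvPolynomial (Fin (k + 2)) ℂ) :
    mkDerivation (Polynomial ℂ) f' (map Polynomial.C N) =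
      map Polynomial.C (mkDerivation ℂ f N) := by
  rw [mk_eq_sum, mk_eq_sum, map_sum]
  refine Finset.sum_congr rfl fun i _ => ?_
  rw [map_mul, hf, pderiv_map]

theorem map_e0 (i : Fin (k + 2)) : map Polynomial.C (e0 ℂ k i) = e0 (Polynomial ℂ) k i := by
  unfold e0
  split_ifs <;> simp

theorem map_e1 (i : Fin (k + 2)) : map Polynomial.C (e1 ℂ k i) = e1 (Polynomial ℂ) k i := by
  unfold e1
  split_ifs <;> simp

theorem comp_zero (P : R k) (n v : ℕ) (hP : ∀ m ∈ P.support, Finsupp.weight (wt k) m ≤ n)
    (hv : n < v) : weightedHomogeneousComponent (wt k) v P = 0 := by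
  apply weightedHomogeneousComponent_eq_zero'
  intro m hm
  have := hP m hm
  omega

theorem coeff_Dl (P : R k) (m : Fin (k + 2) →₀ ℕ) : coeff m (Dl P) = dl (coeff m P) +
    (1 - Polynomial.X) * coeff m (mkDerivation _ (e0 _ k) P) +
    Polynomial.X * coeff m (mkDerivation _ (e1 _ k) P) := by
  unfold Dl
  rw [coeff_add, coeff_add, coeff_dC, coeff_C_mul, coeff_C_mul]

theorem coeff_Dl_top (P : R k) (n : ℕ) (hP : ∀ m ∈ P.support, Finsupp.weight (wt k) m ≤ n)
    (m : Fin (k + 2) →₀ ℕ) (hm : n ≤ Finsupp.weight (wt k) m) :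
    coeff m (Dl P) = dl (coeff m P) := by
  rw [coeff_Dl, coeff_low (wt_pos k) _ e0_hom P m _ rfl, coeff_low (wt_pos k) _ e1_hom P m _ rfl,
    comp_zero P n _ hP (by omega), map_zero, map_zero, coeff_zero, mul_zero, mul_zero, add_zero,
    add_zero]

theorem dl_sub (a p : Polynomial ℂ) : a * dl p - dl a * p =
    Polynomial.X * (1 - Polynomial.X) *
      (a * Polynomial.derivative p - Polynomial.derivative a * p) := by
  unfold dl; ring

theorem XX_ne : (Polynomial.X * (1 - Polynomial.X) : Polynomial ℂ) ≠ 0 := by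
  intro h
  have := congrArg (Polynomial.eval 2) h
  simp at this
  norm_num at this

/-- algebraic independence -/
theorem indep {g : Fin (k + 2) → ℂ → ℂ} {S : Set ℂ} (hS : IsOpen S) (hne : S.Nonempty)
    (hg : ∀ z ∈ S, Sys g z) (P₀ : R k) (hP₀ : ∀ z ∈ S, ev g z P₀ = 0) : P₀ = 0 := by
  classical
  by_contra hcon
  -- minimal weight
  have hT : ∃ n, ∃ P : R k, P ≠ 0 ∧ (∀ z ∈ S, ev g z P = 0) ∧
      ∀ m ∈ P.support, Finsupp.weight (wt k) m ≤ n :=
    ⟨P₀.support.sup (fun m => Finsupp.weight (wt k) m), P₀, hcon, hP₀,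
      fun m hm => Finset.le_sup (f := fun m => Finsupp.weight (wt k) m) hm⟩
  obtain ⟨n, hn⟩ : ∃ n, n = Nat.find hT := ⟨_, rfl⟩
  have hU : ∃ s, ∃ P : R k, P ≠ 0 ∧ (∀ z ∈ S, ev g z P = 0) ∧
      (∀ m ∈ P.support, Finsupp.weight (wt k) m ≤ n) ∧
      (P.support.filter (fun m => Finsupp.weight (wt k) m = n)).card = s := by
    obtain ⟨P, h1, h2, h3⟩ := Nat.find_spec hT
    rw [← hn] at h3
    exact ⟨_, P, h1, h2, h3, rfl⟩
  obtain ⟨P, hP1, hP2, hP3, hP4⟩ := Nat.find_spec hU
  -- a monomial of weight n
  obtain ⟨m0, hm0, hm0w⟩ : ∃ m0 ∈ P.support, Finsupp.weight (wt k) m0 = n := by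
    by_contra hno
    push Not at hno
    obtain ⟨m1, hm1⟩ := support_nonempty.2 hP1
    have h1 := hP3 m1 hm1
    have h2 := hno m1 hm1
    have h3 : n - 1 < Nat.find hT := by omega
    apply Nat.find_min hT h3
    refine ⟨P, hP1, hP2, fun m hm => ?_⟩
    have h4 := hP3 m hm
    have h5 := hno m hm
    omega
  obtain ⟨a, haD⟩ : ∃ a, a = coeff m0 P := ⟨_, rfl⟩
  have ha : a ≠ 0 := by rw [haD]; exact mem_support_iff.1 hm0
  -- the relation `a Dl P = (dl a) P`
  have hev : ∀ z ∈ S, ev g z (Dl P) = 0 := by
    intro z hz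
    obtain ⟨d, h1, h2⟩ := chain (hg z hz) P
    have h3 : (fun y => ev g y P) =ᶠ[𝓝 z] fun _ => 0 := by
      filter_upwards [hS.mem_nhds hz] with y hy
      exact hP2 y hy
    have h4 : d = 0 := h1.unique ((hasDerivAt_const z (0 : ℂ)).congr_of_eventuallyEq h3)
    rw [← h2, h4, mul_zero]
  have hrel : C a * Dl P - C (dl a) * P = 0 := by
    by_contra hQ
    have hsupp : ∀ m ∈ (C a * Dl P - C (dl a) * P).support,
        Finsupp.weight (wt k) m ≤ n := by
      intro m hm
      by_contra hlt
      push Not at hlt
      apply mem_support_iff.1 hm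
      have h1 : coeff m P = 0 := by
        by_contra h
        have := hP3 m (mem_support_iff.2 h)
        omega
      rw [coeff_sub, coeff_C_mul, coeff_C_mul, coeff_Dl_top P n hP3 m hlt.le, h1]
      simp [dl]
    have hcard : ((C a * Dl P - C (dl a) * P).support.filter
        (fun m => Finsupp.weight (wt k) m = n)).card < Nat.find hU := by
      rw [← hP4]
      apply Finset.card_lt_card
      rw [Finset.ssubset_iff_of_subset]
      · refine ⟨m0, Finset.mem_filter.2 ⟨hm0, hm0w⟩, fun h => ?_⟩
        apply mem_support_iff.1 (Finset.mem_filter.1 h).1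
        rw [coeff_sub, coeff_C_mul, coeff_C_mul, coeff_Dl_top P n hP3 m0 hm0w.ge, ← haD]
        ring
      · intro m hm
        rw [Finset.mem_filter] at hm ⊢
        refine ⟨?_, hm.2⟩
        rw [mem_support_iff]
        intro h
        apply mem_support_iff.1 hm.1
        rw [coeff_sub, coeff_C_mul, coeff_C_mul, coeff_Dl_top P n hP3 m hm.2.ge, h]
        simp [dl]
    apply Nat.find_min hU hcard
    refine ⟨C a * Dl P - C (dl a) * P, hQ, fun z hz => ?_, hsupp, rfl⟩
    rw [map_sub, map_mul, map_mul, hev z hz, hP2 z hz]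
    ring
  have hco : ∀ m, a * coeff m (Dl P) = dl a * coeff m P := by
    intro m
    have := congrArg (coeff m) hrel
    rw [coeff_sub, coeff_C_mul, coeff_C_mul, coeff_zero] at this
    exact sub_eq_zero.1 this
  -- the top component is `a * N`
  have hc : ∀ m, ∃ c : ℂ, Finsupp.weight (wt k) m = n → coeff m P = Polynomial.C c * a := by
    intro m
    by_cases hm : Finsupp.weight (wt k) m = n
    · have h1 := hco m
      rw [coeff_Dl_top P n hP3 m hm.ge] at h1
      have h2 := dl_sub a (coeff m P)
      rw [h1, sub_self] at h2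
      obtain ⟨c, hc⟩ := eq_const_mul ha ((mul_eq_zero.1 h2.symm).resolve_left XX_ne)
      exact ⟨c, fun _ => hc⟩
    · exact ⟨0, fun h => absurd h hm⟩
  choose c hc using hc
  obtain ⟨N, hND⟩ : ∃ N : MvPolynomial (Fin (k + 2)) ℂ, N = ∑ m ∈ P.support.filter
      (fun m => Finsupp.weight (wt k) m = n), monomial m (c m) := ⟨_, rfl⟩
  have hNc : ∀ m, coeff m N = if m ∈ P.support ∧ Finsupp.weight (wt k) m = n then c m else 0 := by
    intro m
    rw [hND, coeff_sum]
    simp only [coeff_monomial]
    rw [Finset.sum_ite_eq']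
    simp only [Finset.mem_filter]
  have hcomp : weightedHomogeneousComponent (wt k) n P = C a * map Polynomial.C N := by
    ext1 m
    rw [coeff_weightedHomogeneousComponent, coeff_C_mul, coeff_map, hNc]
    by_cases hm : Finsupp.weight (wt k) m = n
    · rw [if_pos hm]
      by_cases hm' : m ∈ P.support
      · rw [if_pos ⟨hm', hm⟩, hc m hm, mul_comm]
      · rw [if_neg (fun h => hm' h.1), map_zero, mul_zero, notMem_support_iff.1 hm']
    · rw [if_neg hm, if_neg (fun h => hm h.2), map_zero, mul_zero]
  have hN0 : coeff m0 N ≠ 0 := by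
    rw [hNc, if_pos ⟨hm0, hm0w⟩]
    intro h
    have h1 := hc m0 hm0w
    rw [h, map_zero, zero_mul, ← haD] at h1
    exact ha h1
  rcases Nat.eq_zero_or_pos n with hn0 | hnpos
  · -- weight 0: `P` is a polynomial in `z`
    have hsup : ∀ m ∈ P.support, m = 0 := by
      intro m hm
      by_contra hm'
      obtain ⟨i, hi⟩ : ∃ i, m i ≠ 0 := by
        by_contra hcon
        push Not at hcon
        exact hm' (Finsupp.ext hcon)
      have h4 := weight_sub (w := wt k) m i hi
      have h5 := wt_pos k i
      have h6 := hP3 m hm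
      omega
    have hPC : P = C (coeff 0 P) := by
      ext1 m
      rw [coeff_C]
      split_ifs with h
      · rw [← h]
      · by_contra h'
        exact h (hsup m (mem_support_iff.2 h')).symm
    obtain ⟨x, hx⟩ := hne
    have hinf : S.Infinite := infinite_of_mem_nhds x (hS.mem_nhds hx)
    have hz : coeff 0 P = 0 := by
      apply Polynomial.eq_zero_of_infinite_isRoot
      refine hinf.mono fun z hz => ?_
      have h1 := hP2 z hz
      rw [hPC, ev_C] at h1
      exact h1
    apply hP1
    rw [hPC, hz, map_zero]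
  · -- positive weight
    have hres : ∀ m, Finsupp.weight (wt k) m + 1 = n →
        coeff m (mkDerivation ℂ (e0 ℂ k) N) = 0 ∧ coeff m (mkDerivation ℂ (e1 ℂ k) N) = 0 := by
      intro m hm
      have h1 := hco m
      rw [coeff_Dl, coeff_low (wt_pos k) _ e0_hom P m _ rfl,
        coeff_low (wt_pos k) _ e1_hom P m _ rfl, hm, hcomp, mk_C_mul, mk_C_mul,
        map_mk (e0 ℂ k) (e0 _ k) map_e0, map_mk (e1 ℂ k) (e1 _ k) map_e1, coeff_C_mul,
        coeff_C_mul, coeff_map, coeff_map] at h1
      obtain ⟨α, hα⟩ : ∃ α, α = coeff m (mkDerivation ℂ (e0 ℂ k) N) := ⟨_, rfl⟩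
      obtain ⟨β, hβ⟩ : ∃ β, β = coeff m (mkDerivation ℂ (e1 ℂ k) N) := ⟨_, rfl⟩
      rw [← hα, ← hβ] at h1 ⊢
      have h2 := dl_sub a (coeff m P)
      have h3 : Polynomial.X * (1 - Polynomial.X) * (a * Polynomial.derivative (coeff m P) -
          Polynomial.derivative a * coeff m P) =
          a ^ 2 * (-((1 - Polynomial.X) * Polynomial.C α + Polynomial.X * Polynomial.C β)) := by
        rw [← h2, ← h1]
        ring
      constructor
      · have h4 : (Polynomial.X - Polynomial.C (0 : ℂ)) * (1 - Polynomial.X) *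
            (a * Polynomial.derivative (coeff m P) - Polynomial.derivative a * coeff m P) =
            a ^ 2 * (-((1 - Polynomial.X) * Polynomial.C α +
              Polynomial.X * Polynomial.C β)) := by
          rw [map_zero, sub_zero, h3]
        have h5 := residue ha (by simp) h4
        simpa using h5
      · have h4 : (Polynomial.X - Polynomial.C (1 : ℂ)) * (-Polynomial.X) *
            (a * Polynomial.derivative (coeff m P) - Polynomial.derivative a * coeff m P) =
            a ^ 2 * (-((1 - Polynomial.X) * Polynomial.C α +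
              Polynomial.X * Polynomial.C β)) := by
          rw [map_one, ← h3]; ring
        have h5 := residue ha (by simp) h4
        simpa using h5
    have hNcomp : ∀ v, v ≠ n → weightedHomogeneousComponent (wt k) v N = 0 := by
      intro v hv
      apply weightedHomogeneousComponent_eq_zero'
      intro m hm
      rw [mem_support_iff, hNc] at hm
      split_ifs at hm with h
      · rw [h.2]; exact hv.symm
      · exact absurd rfl hm
    have hz0 : mkDerivation ℂ (e0 ℂ k) N = 0 := by
      ext1 m
      by_cases hm : Finsupp.weight (wt k) m + 1 = n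
      · rw [(hres m hm).1, coeff_zero]
      · rw [coeff_low (wt_pos k) _ e0_hom N m _ rfl, hNcomp _ hm, map_zero]
    have hz1 : mkDerivation ℂ (e1 ℂ k) N = 0 := by
      ext1 m
      by_cases hm : Finsupp.weight (wt k) m + 1 = n
      · rw [(hres m hm).2, coeff_zero]
      · rw [coeff_low (wt_pos k) _ e1_hom N m _ rfl, hNcomp _ hm, map_zero]
    have hpd := pderiv_zero N hz0 hz1
    obtain ⟨i, hi⟩ : ∃ i, m0 i ≠ 0 := by
      by_contra hcon'
      push Not at hcon'
      have : m0 = 0 := Finsupp.ext hcon'
      rw [this, map_zero] at hm0w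
      omega
    have h1 := congrArg (coeff (m0 - Finsupp.single i 1)) (hpd i)
    rw [coeff_pderiv, coeff_zero] at h1
    have h2 : m0 - Finsupp.single i 1 + Finsupp.single i 1 = m0 := by
      ext j
      by_cases hj : j = i
      · subst hj
        simp only [Finsupp.coe_add, Finsupp.coe_tsub, Pi.add_apply, Pi.sub_apply,
          Finsupp.single_eq_same]
        omega
      · simp [Finsupp.single_eq_of_ne hj]
    rw [h2] at h1
    rcases mul_eq_zero.1 h1 with h3 | h3
    · exact hN0 h3
    · exact Nat.cast_add_one_ne_zero _ h3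

/-- evaluation in the other description of the polynomial ring -/
theorem ev_option (g : Fin (k + 2) → ℂ → ℂ) (z : ℂ) (Q : MvPolynomial (Option (Fin (k + 2))) ℂ) :
    ev g z (optionEquivRight ℂ (Fin (k + 2)) Q) =
      MvPolynomial.eval (fun o : Option (Fin (k + 2)) => o.elim z (fun j => g j z)) Q := by
  induction Q using MvPolynomial.induction_on with
  | C a => rw [optionEquivRight_C, ev_C, Polynomial.eval_C, eval_C]
  | add p q hp hq => rw [map_add, map_add, hp, hq, map_add]
  | mul_X p i hp =>
    rw [map_mul, map_mul, hp, map_mul, eval_X]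
    congr 1
    cases i with
    | none => rw [optionEquivRight_X_none, ev_C, Polynomial.eval_X]; rfl
    | some j => rw [optionEquivRight_X_some, ev_X]; rfl

theorem indep_option {g : Fin (k + 2) → ℂ → ℂ} {S : Set ℂ} (hS : IsOpen S) (hne : S.Nonempty)
    (hg : ∀ z ∈ S, Sys g z) (Q : MvPolynomial (Option (Fin (k + 2))) ℂ)
    (hQ : ∀ z ∈ S, MvPolynomial.eval
      (fun o : Option (Fin (k + 2)) => o.elim z (fun j => g j z)) Q = 0) : Q = 0 := by
  have h1 := indep hS hne hg (optionEquivRight ℂ (Fin (k + 2)) Q)
    (fun z hz => by rw [ev_option]; exact hQ z hz)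
  exact (map_eq_zero_iff _ (optionEquivRight ℂ (Fin (k + 2))).injective).1 h1

end main

end

end Pool.Agent.POL
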