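import Pool.Agent.POL.CNT

/-!
# POL: tuples of rational numbers
-/

open scoped Topology
open Metric Set

namespace Pool.Agent.POL

noncomputable section

/-- The numbers `c` and the values of the polylogarithms at the points `r i`. -/
def cvec {ι : Type} (k : ℕ) {n : ℕ} (c : ι → ℂ) (r : Fin n → ℝ) : ι ⊕ (Fin n × Fin (k + 2)) → ℂ :=
  Sum.elim c (fun p => (per k (r p.1) p.2 : ℂ))

/-- index sets -/
def idx (ι : Type) (k n : ℕ) : (ι ⊕ (Fin n × Fin (k + 2))) ⊕ Fin (k + 2) →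
    ι ⊕ (Fin (n + 1) × Fin (k + 2)) :=
  Sum.elim (Sum.elim (fun i => Sum.inl i) (fun p => Sum.inr (p.1.castSucc, p.2)))
    (fun j => Sum.inr (Fin.last n, j))

theorem idx_bij (ι : Type) (k n : ℕ) : Function.Bijective (idx ι k n) := by
  constructor
  · rintro ((i | ⟨i, j⟩) | j) ((i' | ⟨i', j'⟩) | j') h
    · simp only [idx, Sum.elim_inl, Sum.inl.injEq] at h
      rw [h]
    · simp [idx] at h
    · simp [idx] at h
    · simp [idx] at h
    · simp only [idx, Sum.elim_inl, Sum.elim_inr, Sum.inr.injEq, Prod.mk.injEq,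
        Fin.castSucc_inj] at h
      rw [h.1, h.2]
    · simp only [idx, Sum.elim_inl, Sum.elim_inr, Sum.inr.injEq, Prod.mk.injEq] at h
      exact absurd h.1 (Fin.castSucc_lt_last i).ne
    · simp [idx] at h
    · simp only [idx, Sum.elim_inl, Sum.elim_inr, Sum.inr.injEq, Prod.mk.injEq] at h
      exact absurd h.1 (Fin.castSucc_lt_last i').ne'
    · simp only [idx, Sum.elim_inr, Sum.inr.injEq, Prod.mk.injEq, true_and] at h
      rw [h]
  · rintro (i | ⟨i, j⟩)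
    · exact ⟨Sum.inl (Sum.inl i), rfl⟩
    · revert j
      refine Fin.lastCases ?_ (fun i => ?_) i
      · exact fun j => ⟨Sum.inr j, rfl⟩
      · exact fun j => ⟨Sum.inl (Sum.inr ⟨i, j⟩), rfl⟩

theorem free_snoc {ι : Type} (k n : ℕ) (c : ι → ℂ) (D B : ℕ) (t : Fin (n + 1) → ℝ)
    (h : GPC.Free D B (Sum.elim (cvec k c (fun i : Fin n => t i.castSucc))
      (fun i => (per k (t (Fin.last n)) i : ℂ)))) :
    GPC.Free D B (cvec k c t) := by
  apply HGP.InducX.free_rename (Equiv.ofBijective (idx ι k n) (idx_bij ι k n))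
  have e : (cvec k c t) ∘ (Equiv.ofBijective (idx ι k n) (idx_bij ι k n)) =
      Sum.elim (cvec k c (fun i : Fin n => t i.castSucc))
      (fun i => (per k (t (Fin.last n)) i : ℂ)) := by
    funext x
    rcases x with (i | ⟨i, j⟩) | j
    · rfl
    · rfl
    · rfl
  rw [e]
  exact h

theorem base {ι : Type} (k : ℕ) (c : ι → ℂ) (D B : ℕ) (t : Fin 0 → ℝ) (h : GPC.Free D B c) :
    GPC.Free D B (cvec k c t) := by
  apply HGP.InducX.free_rename (Equiv.sumEmpty ι (Fin 0 × Fin (k + 2))).symm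
  have e : (cvec k c t) ∘ (Equiv.sumEmpty ι (Fin 0 × Fin (k + 2))).symm = c := by
    funext x
    rfl
  rw [e]
  exact h

open HGP.InducX in
/-- The counting theorem for tuples. -/
theorem induc (hG : GPC.Stmt_ThmG) (k : ℕ) (δ : ℝ) (hδ : 0 < δ) (ι : Type) [Fintype ι]
    (D A : ℕ) (ε : ℝ) (hε : 0 < ε) (n : ℕ) : ∃ C : ℝ, ∀ H : ℕ, 1 ≤ H → ∀ c : ι → ℂ,
    GPC.Free D (H ^ A) c →
    (Nat.card {r : Fin n → ℚ // (∀ i, δ ≤ |(r i : ℝ)| ∧ |(r i : ℝ)| ≤ 1 - δ ∧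
      (r i).num.natAbs ≤ H ∧ (r i).den ≤ H) ∧
      ¬ GPC.Free D (H ^ A) (cvec k c (fun i => (r i : ℝ)))} : ℝ) ≤
        C * (H : ℝ) ^ (2 * (n : ℝ) - 2 + ε) := by
  induction n with
  | zero =>
    refine ⟨0, fun H _ c hc => ?_⟩
    have : IsEmpty {r : Fin 0 → ℚ // (∀ i, δ ≤ |(r i : ℝ)| ∧ |(r i : ℝ)| ≤ 1 - δ ∧
        (r i).num.natAbs ≤ H ∧ (r i).den ≤ H) ∧
        ¬ GPC.Free D (H ^ A) (cvec k c (fun i => (r i : ℝ)))} := by
      constructor
      rintro ⟨t, _, h⟩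
      exact h (base k c _ _ _ hc)
    rw [Nat.card_of_isEmpty]
    simp
  | succ r ih =>
    obtain ⟨C1, hC1⟩ := step hG k δ hδ ε hε (ι ⊕ (Fin r × Fin (k + 2))) D A
    obtain ⟨C2, hC2⟩ := ih
    refine ⟨3 * |C2| + 3 ^ r * |C1|, fun H hH c hc => ?_⟩
    have hH1 : (1 : ℝ) ≤ H := by exact_mod_cast hH
    have hH0 : (0 : ℝ) < H := by linarith
    have hbox := card_bx hH
    have key := count_step (r := r) (bx H)
      (fun t => (∀ i, δ ≤ |(t i : ℝ)| ∧ |(t i : ℝ)| ≤ 1 - δ ∧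
        (t i).num.natAbs ≤ H ∧ (t i).den ≤ H) ∧
        ¬ GPC.Free D (H ^ A) (cvec k c (fun i => (t i : ℝ))))
      (fun t => (∀ i, δ ≤ |(t i : ℝ)| ∧ |(t i : ℝ)| ≤ 1 - δ ∧
        (t i).num.natAbs ≤ H ∧ (t i).den ≤ H) ∧
        ¬ GPC.Free D (H ^ A) (cvec k c (fun i => (t i : ℝ))))
      (fun t q => GPC.Free D (H ^ A) (cvec k c (fun i => (t i : ℝ))) ∧
        (δ ≤ |(q : ℝ)| ∧ |(q : ℝ)| ≤ 1 - δ ∧ q.num.natAbs ≤ H ∧ q.den ≤ H ∧
        ¬ GPC.Free D (H ^ A) (Sum.elim (cvec k c (fun i => (t i : ℝ)))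
          (fun i => (per k q i : ℂ)))))
      (|C1| * (H : ℝ) ^ ε)
      (fun t ht i => mem_bx (ht.1 i).2.2.1 (ht.1 i).2.2.2)
      (fun t ht i => mem_bx (ht.1 i).2.2.1 (ht.1 i).2.2.2)
      (by
        intro t' T hTS
        rcases T.eq_empty_or_nonempty with rfl | ⟨q0, hq0⟩
        · simp only [Finset.card_empty, Nat.cast_zero]
          positivity
        · refine (hC1 H hH _ (hTS q0 hq0).1 T (fun q hq => (hTS q hq).2)).trans ?_
          exact mul_le_mul_of_nonneg_right (le_abs_self _) (by positivity))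
      (by
        rintro t ⟨ht, hnf⟩
        by_cases hfr : GPC.Free D (H ^ A) (cvec k c (fun i : Fin r => (t i.castSucc : ℝ)))
        · right
          exact ⟨hfr, (ht _).1, (ht _).2.1, (ht _).2.2.1, (ht _).2.2.2,
            fun hcon => hnf (free_snoc k r c _ _ (fun i => (t i : ℝ)) hcon)⟩
        · left
          exact ⟨fun i => ht _, hfr⟩)
    refine key.trans ?_
    have h1 := hC2 H hH c hc
    have h1' : C2 * (H : ℝ) ^ (2 * (r : ℝ) - 2 + ε) ≤ |C2| * (H : ℝ) ^ (2 * (r : ℝ) - 2 + ε) :=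
      mul_le_mul_of_nonneg_right (le_abs_self _) (by positivity)
    have h2 : ((bx H).card : ℝ) ^ r ≤ (3 * (H : ℝ) ^ 2) ^ r :=
      pow_le_pow_left₀ (by positivity) hbox r
    have e1 : (H : ℝ) ^ (2 * (r : ℝ) - 2 + ε) * (H : ℝ) ^ 2 =
        (H : ℝ) ^ (2 * ((r + 1 : ℕ) : ℝ) - 2 + ε) := by
      rw [← Real.rpow_natCast (H : ℝ) 2, ← Real.rpow_add hH0]
      congr 1
      push_cast
      ring
    have e2 : ((H : ℝ) ^ 2) ^ r * (H : ℝ) ^ ε = (H : ℝ) ^ (2 * ((r + 1 : ℕ) : ℝ) - 2 + ε) := by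
      rw [← pow_mul, ← Real.rpow_natCast (H : ℝ) (2 * r), ← Real.rpow_add hH0]
      congr 1
      push_cast
      ring
    calc _ ≤ (|C2| * (H : ℝ) ^ (2 * (r : ℝ) - 2 + ε)) * (3 * (H : ℝ) ^ 2) +
          (3 * (H : ℝ) ^ 2) ^ r * (|C1| * (H : ℝ) ^ ε) := by
          have := h1.trans h1'
          gcongr
      _ = 3 * |C2| * ((H : ℝ) ^ (2 * (r : ℝ) - 2 + ε) * (H : ℝ) ^ 2) +
          3 ^ r * |C1| * (((H : ℝ) ^ 2) ^ r * (H : ℝ) ^ ε) := by
          rw [mul_pow]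
          ring
      _ = _ := by
          rw [e1, e2]
          ring

end

end Pool.Agent.POL
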