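import Pool.Agent.POL.IND
import Pool.Agent.GPC.Main

/-!
# POL: algebraic relations between values of polylogarithms at tuples of rational numbers
-/

open scoped Topology

namespace Pool.Agent.POL

noncomputable section

/-- `2 π i` is transcendental. -/
theorem free_pi (D B : ℕ) : GPC.Free D B (fun _ : Unit => (2 * Real.pi * Complex.I : ℂ)) := by
  let e : Unit ≃ Option (Σ i : Fin 0, HGP.Idx ((fun i : Fin 0 => 0) i)) :=
    { toFun := fun _ => none
      invFun := fun _ => ()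
      left_inv := fun _ => rfl
      right_inv := by
        rintro (_ | ⟨i, _⟩)
        · rfl
        · exact i.elim0 }
  have h := HGP.InducX.base D B (fun i : Fin 0 => 0) (fun i : Fin 0 => i.elim0) (fun i => i.elim0)
  refine HGP.InducX.free_rename e.symm D B _ ?_
  convert h using 1
  funext o
  rcases o with _ | ⟨i, _⟩
  · rfl
  · exact i.elim0

/-- The numbers `2 π i, log |r i|, Li_j (r i)` (`i < n`, `1 ≤ j ≤ k + 1`). -/
def periods (k : ℕ) {n : ℕ} (r : Fin n → ℝ) : Option (Fin n × Fin (k + 2)) → ℂ :=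
  fun o => o.elim (2 * Real.pi * Complex.I) (fun p => (per k (r p.1) p.2 : ℂ))

theorem free_option (k n D B : ℕ) (r : Fin n → ℝ)
    (h : GPC.Free D B (cvec k (fun _ : Unit => (2 * Real.pi * Complex.I : ℂ)) r)) :
    GPC.Free D B (periods k r) := by
  let e : Unit ⊕ (Fin n × Fin (k + 2)) ≃ Option (Fin n × Fin (k + 2)) :=
    { toFun := Sum.elim (fun _ => none) some
      invFun := fun o => o.elim (Sum.inl ()) Sum.inr
      left_inv := by rintro (_ | p) <;> rfl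
      right_inv := by rintro (_ | p) <;> rfl }
  refine HGP.InducX.free_rename e D B _ ?_
  have he : periods k r ∘ e = cvec k (fun _ : Unit => (2 * Real.pi * Complex.I : ℂ)) r := by
    funext x
    rcases x with _ | p <;> rfl
  rw [he]
  exact h

/-- The main theorem. -/
theorem main (k n : ℕ) (δ : ℝ) (hδ : 0 < δ) (D A : ℕ) (ε : ℝ) (hε : 0 < ε) :
    ∃ C : ℝ, ∀ H : ℕ, 1 ≤ H →
    (Nat.card {r : Fin n → ℚ // (∀ i, δ ≤ |(r i : ℝ)| ∧ |(r i : ℝ)| ≤ 1 - δ ∧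
      (r i).num.natAbs ≤ H ∧ (r i).den ≤ H) ∧
      ∃ P : MvPolynomial (Option (Fin n × Fin (k + 2))) ℤ, P ≠ 0 ∧ GPC.IsSmall P D (H ^ A) ∧
        MvPolynomial.aeval (periods k (fun i => (r i : ℝ))) P = 0} : ℝ) ≤
        C * (H : ℝ) ^ (2 * (n : ℝ) - 2 + ε) := by
  classical
  obtain ⟨C, hC⟩ := induc GPC.Main.thmG k δ hδ Unit D A ε hε n
  refine ⟨C, fun H hH => ?_⟩
  refine le_trans ?_ (hC H hH _ (free_pi D (H ^ A)))
  have hfin : {r : Fin n → ℚ | (∀ i, δ ≤ |(r i : ℝ)| ∧ |(r i : ℝ)| ≤ 1 - δ ∧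
      (r i).num.natAbs ≤ H ∧ (r i).den ≤ H) ∧
      ¬ GPC.Free D (H ^ A) (cvec k (fun _ : Unit => (2 * Real.pi * Complex.I : ℂ))
        (fun i => (r i : ℝ)))}.Finite := by
    refine (Set.Finite.pi' (fun _ : Fin n => (HGP.InducX.bx H).finite_toSet)).subset ?_
    intro r hr i
    exact HGP.InducX.mem_bx (hr.1 i).2.2.1 (hr.1 i).2.2.2
  have hsub : {r : Fin n → ℚ | (∀ i, δ ≤ |(r i : ℝ)| ∧ |(r i : ℝ)| ≤ 1 - δ ∧
      (r i).num.natAbs ≤ H ∧ (r i).den ≤ H) ∧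
      ∃ P : MvPolynomial (Option (Fin n × Fin (k + 2))) ℤ, P ≠ 0 ∧ GPC.IsSmall P D (H ^ A) ∧
        MvPolynomial.aeval (periods k (fun i => (r i : ℝ))) P = 0} ⊆
      {r : Fin n → ℚ | (∀ i, δ ≤ |(r i : ℝ)| ∧ |(r i : ℝ)| ≤ 1 - δ ∧
      (r i).num.natAbs ≤ H ∧ (r i).den ≤ H) ∧
      ¬ GPC.Free D (H ^ A) (cvec k (fun _ : Unit => (2 * Real.pi * Complex.I : ℂ))
        (fun i => (r i : ℝ)))} := by
    rintro r ⟨h1, P, hP, hPs, hP0⟩
    refine ⟨h1, fun hf => hP ?_⟩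
    exact free_option k n D (H ^ A) _ hf P hPs hP0
  exact_mod_cast Set.ncard_le_ncard hsub hfin

end

end Pool.Agent.POL
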