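import Mathlib

/-!
# POL: lemmas on polynomials in one variable
-/

open Polynomial

namespace Pool.Agent.POL

/-! ### Two lemmas on polynomials in one variable -/

theorem exists_coprime {a p : ℂ[X]} (ha : a ≠ 0) :
    ∃ g a1 p1 : ℂ[X], g ≠ 0 ∧ a1 ≠ 0 ∧ a = g * a1 ∧ p = g * p1 ∧ IsCoprime a1 p1 := by
  have hg0 : EuclideanDomain.gcd a p ≠ 0 := fun h0 => ha ((EuclideanDomain.gcd_eq_zero_iff.1 h0).1)
  have h1 := EuclideanDomain.mul_div_cancel' hg0 (EuclideanDomain.gcd_dvd_left a p)
  have h2 := EuclideanDomain.mul_div_cancel' hg0 (EuclideanDomain.gcd_dvd_right a p)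
  refine ⟨_, _, _, hg0, ?_, h1.symm, h2.symm, ?_⟩
  · intro h0
    rw [h0, mul_zero] at h1
    exact ha h1.symm
  · have hco := EuclideanDomain.gcd_eq_gcd_ab a p
    refine ⟨EuclideanDomain.gcdA a p, EuclideanDomain.gcdB a p, ?_⟩
    apply mul_left_cancel₀ hg0
    rw [mul_one]
    refine Eq.trans ?_ hco.symm
    calc _ = (EuclideanDomain.gcd a p * (a / EuclideanDomain.gcd a p)) *
          EuclideanDomain.gcdA a p + (EuclideanDomain.gcd a p * (p / EuclideanDomain.gcd a p)) *
          EuclideanDomain.gcdB a p := by ring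
      _ = _ := by rw [h1, h2]

theorem wronskian_mul (g a p : ℂ[X]) :
    (g * a) * derivative (g * p) - derivative (g * a) * (g * p) =
      g ^ 2 * (a * derivative p - derivative a * p) := by
  rw [derivative_mul, derivative_mul]; ring

theorem eq_const_mul {a p : ℂ[X]} (ha : a ≠ 0)
    (h : a * derivative p - derivative a * p = 0) : ∃ c : ℂ, p = Polynomial.C c * a := by
  obtain ⟨g, a1, p1, hg, ha1, rfl, rfl, hco⟩ := exists_coprime (p := p) ha
  rw [wronskian_mul] at h
  have h1 : a1 * derivative p1 - derivative a1 * p1 = 0 :=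
    (mul_eq_zero.1 h).resolve_left (pow_ne_zero 2 hg)
  obtain ⟨h2, h3⟩ := hco.wronskian_eq_zero_iff.1 h1
  have h4 := Polynomial.eq_C_of_derivative_eq_zero h2
  have h5 := Polynomial.eq_C_of_derivative_eq_zero h3
  have h6 : a1.coeff 0 ≠ 0 := by
    intro h0
    rw [h0, map_zero] at h4
    exact ha1 h4
  refine ⟨p1.coeff 0 / a1.coeff 0, ?_⟩
  rw [h4, h5]
  simp only [Polynomial.coeff_C_zero]
  rw [mul_left_comm, ← Polynomial.C_mul, div_mul_cancel₀ _ h6]

/-- residues of derivatives of rational functions vanish -/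
theorem residue {a p q1 r : ℂ[X]} {c : ℂ} (ha : a ≠ 0) (hq : q1.eval c ≠ 0)
    (h : (X - Polynomial.C c) * q1 * (a * derivative p - derivative a * p) = a ^ 2 * r) :
    r.eval c = 0 := by
  obtain ⟨g, a1, p1, hg, ha1, rfl, rfl, hco⟩ := exists_coprime (p := p) ha
  rw [wronskian_mul] at h
  have h1 : (X - Polynomial.C c) * q1 * (a1 * derivative p1 - derivative a1 * p1) =
      a1 ^ 2 * r := by
    apply mul_left_cancel₀ (pow_ne_zero 2 hg)
    calc _ = (X - Polynomial.C c) * q1 * (g ^ 2 * (a1 * derivative p1 - derivative a1 * p1)) := by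
          ring
      _ = _ := by rw [h]; ring
  by_cases hac : a1.eval c = 0
  · exfalso
    have hp1 : p1.eval c ≠ 0 := by
      intro h0
      obtain ⟨u, v, huv⟩ := hco
      have := congrArg (Polynomial.eval c) huv
      rw [eval_add, eval_mul, eval_mul, hac, h0] at this
      simp at this
    obtain ⟨a2, ha2, hnd⟩ := Polynomial.exists_eq_pow_rootMultiplicity_mul_and_not_dvd a1 ha1 c
    have hn : 0 < rootMultiplicity c a1 := (rootMultiplicity_pos ha1).2 hac
    obtain ⟨n, hn'⟩ : ∃ n, rootMultiplicity c a1 = n + 1 := ⟨_, (Nat.succ_pred_eq_of_pos hn).symm⟩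
    rw [hn'] at ha2
    have ha2c : a2.eval c ≠ 0 := fun h0 => hnd (dvd_iff_isRoot.2 h0)
    have hder : derivative a1 = (X - Polynomial.C c) ^ n *
        (Polynomial.C ((n : ℂ) + 1) * a2 + (X - Polynomial.C c) * derivative a2) := by
      rw [ha2, derivative_mul, derivative_X_sub_C_pow]
      simp only [Nat.add_sub_cancel]
      push_cast
      simp only [map_add, map_natCast, map_one]
      ring
    have h2 : q1 * ((X - Polynomial.C c) * (a2 * derivative p1 - derivative a2 * p1) -
        Polynomial.C ((n : ℂ) + 1) * a2 * p1) = (X - Polynomial.C c) ^ (n + 1) * (a2 ^ 2 * r) := by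
      have hX : (X - Polynomial.C c) ^ (n + 1) ≠ 0 := pow_ne_zero _ (X_sub_C_ne_zero c)
      apply mul_left_cancel₀ hX
      calc _ = (X - Polynomial.C c) * q1 * (((X - Polynomial.C c) ^ (n + 1) * a2) * derivative p1 -
            ((X - Polynomial.C c) ^ n *
              (Polynomial.C ((n : ℂ) + 1) * a2 + (X - Polynomial.C c) * derivative a2)) * p1) := by
            ring
        _ = (X - Polynomial.C c) * q1 * (a1 * derivative p1 - derivative a1 * p1) := by
            rw [← hder, ← ha2]
        _ = a1 ^ 2 * r := h1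
        _ = _ := by rw [ha2]; ring
    have h3 := congrArg (Polynomial.eval c) h2
    simp only [eval_mul, eval_sub, eval_pow, eval_X, eval_C, sub_self, zero_mul, zero_sub,
      zero_pow (Nat.succ_ne_zero n)] at h3
    have h4 : ((n : ℂ) + 1) ≠ 0 := by exact_mod_cast Nat.succ_ne_zero n
    have h5 : q1.eval c * -(((n : ℂ) + 1) * a2.eval c * p1.eval c) ≠ 0 :=
      mul_ne_zero hq (neg_ne_zero.2 (mul_ne_zero (mul_ne_zero h4 ha2c) hp1))
    exact h5 h3
  · have h2 := congrArg (Polynomial.eval c) h1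
    simp only [eval_mul, eval_sub, eval_pow, eval_X, eval_C, sub_self, zero_mul] at h2
    exact (mul_eq_zero.1 h2.symm).resolve_left (pow_ne_zero 2 hac)

end Pool.Agent.POL
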